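import Pool.Agent.MP_dd9dc3_ag.Mg.Main

/-!
Shokurov's index conjecture fails for d = 3, ε = 1, B = 0: normal affine threefold germs with
minimal log discrepancy 1 at a closed point and Cartier index of K_X equal to 2 ^ (n + 1).
-/

namespace Pool.Agent.Results.MP_dd9dc3_ag.Disproof

open Pool.Agent.MP_dd9dc3_ag

universe u

theorem result (k : Type u) [Field k] [IsAlgClosed k] [CharZero k] (n : ℕ) :
    ∃ (K : Type u) (_ : Field K) (_ : Algebra k K) (A : Subalgebra k K) (x : Ideal A)
      (z : Fin 3 → K), IsModel A ∧ ringKrullDim A = 3 ∧ x.IsMaximal ∧ dform k z ≠ 0 ∧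
      HasMld A x (dform k z) 1 ∧ ∀ m : ℕ, IsCartier A x (dform k z) m ↔ 2 ^ (n + 1) ∣ m :=
  counterexample k n

end Pool.Agent.Results.MP_dd9dc3_ag.Disproof
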